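import Pool.Agent.X160.Ps.Det
import Pool.Agent.X160.Pf.Poly
set_option autoImplicit false

/-!
# Piecewise Taylor approximation of a family of planes
-/

open MeasureTheory Set Metric Filter Function
open scoped ENNReal NNReal Topology

namespace Pool.Agent.X160.Ps

open Pool.Agent.X160.Pf
open Pool.Agent.H810R3.Tub (pmap tpol tpol_eval tpol_deg)

variable {m : ℕ}

/-- the cell of a point -/
noncomputable def cell (h : ℝ) (s : Vec m) : Fin m → ℤ := fun j => ⌊s j / h⌋

/-- the points of `S` that are not on the boundary of a cell -/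
def inner' (h : ℝ) (S : Set (Vec m)) : Set (Vec m) := {s | s ∈ S ∧ ∀ j, s j / h ≠ (⌊s j / h⌋ : ℝ)}

open Classical in
/-- the centre of a cell that meets `S` -/
noncomputable def ctr (h : ℝ) (S : Set (Vec m)) (c : Fin m → ℤ) : Vec m :=
  if H : ∃ s ∈ S, cell h s = c then H.choose else 0

/-- a map defined piecewise -/
noncomputable def glue {Z : Type*} (F : (Fin m → ℤ) → Vec m → Z) (h : ℝ) (s : Vec m) : Z :=
  F (cell h s) s

/-- piecewise Taylor approximation -/
noncomputable def pw (b : Vec m → Vec m) (k : ℕ) (h : ℝ) (S : Set (Vec m)) : Vec m → Vec m :=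
  glue (fun c => pmap (tpol b k (ctr h S c))) h

/-- its derivative -/
noncomputable def pwd (b : Vec m → Vec m) (k : ℕ) (h : ℝ) (S : Set (Vec m)) :
    Vec m → Vec m →L[ℝ] Vec m :=
  glue (fun c => fderiv ℝ (pmap (tpol b k (ctr h S c)))) h

theorem measurable_cell (h : ℝ) : Measurable (cell (m := m) h) := by
  unfold cell
  refine measurable_pi_lambda _ fun j => ?_
  have h1 : Measurable (fun s : Vec m => s j / h) := by
    have : Continuous (fun s : Vec m => s j) := by fun_prop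
    exact this.measurable.div_const h
  exact Int.measurable_floor.comp h1

theorem measurableSet_inner {h : ℝ} {S : Set (Vec m)} (hS : MeasurableSet S) :
    MeasurableSet (inner' h S) := by
  have e : inner' h S = S ∩ ⋂ j, {s : Vec m | s j / h ≠ (⌊s j / h⌋ : ℝ)} := by
    ext s
    simp [inner']
  rw [e]
  refine hS.inter (MeasurableSet.iInter fun j => ?_)
  have h1 : Measurable (fun s : Vec m => s j / h) := by
    have : Continuous (fun s : Vec m => s j) := by fun_prop
    exact this.measurable.div_const h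
  have h2 : Measurable (fun s : Vec m => ((⌊s j / h⌋ : ℤ) : ℝ)) :=
    (measurable_of_countable (fun z : ℤ => (z : ℝ))).comp (Int.measurable_floor.comp h1)
  exact (measurableSet_eq_fun h1 h2).compl

theorem ctr_spec {h : ℝ} {S : Set (Vec m)} {s : Vec m} (hs : s ∈ S) :
    ctr h S (cell h s) ∈ S ∧ cell h (ctr h S (cell h s)) = cell h s := by
  unfold ctr
  have H : ∃ s' ∈ S, cell h s' = cell h s := ⟨s, hs, rfl⟩
  rw [dif_pos H]
  exact H.choose_spec

theorem ctr_dist {h : ℝ} (hh : 0 < h) {S : Set (Vec m)} {s : Vec m} (hs : s ∈ S) (hm : 1 ≤ m) :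
    ‖s - ctr h S (cell h s)‖ ≤ m * h := by
  set w := ctr h S (cell h s) with hw
  have h1 : ∀ j, |s j - w j| ≤ h := by
    intro j
    have h2 : ⌊w j / h⌋ = ⌊s j / h⌋ := congrFun (ctr_spec (h := h) hs).2 j
    have a1 := Int.floor_le (s j / h)
    have a2 := Int.lt_floor_add_one (s j / h)
    have b1 := Int.floor_le (w j / h)
    have b2 := Int.lt_floor_add_one (w j / h)
    rw [h2] at b1 b2
    have : |s j / h - w j / h| ≤ 1 := by
      rw [abs_le]
      constructor <;> linarith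
    rw [← sub_div, abs_div, abs_of_pos hh, div_le_one hh] at this
    exact this
  rw [EuclideanSpace.norm_eq]
  have hm0 : (1 : ℝ) ≤ m := by exact_mod_cast hm
  rw [Real.sqrt_le_left (by positivity)]
  calc ∑ i, ‖(s - w) i‖ ^ 2 ≤ ∑ _i : Fin m, h ^ 2 := by
        apply Finset.sum_le_sum
        intro i _
        apply pow_le_pow_left₀ (norm_nonneg _)
        exact h1 i
    _ = m * h ^ 2 := by simp
    _ ≤ (m * h) ^ 2 := by
        rw [mul_pow]
        apply mul_le_mul_of_nonneg_right _ (by positivity)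
        nlinarith

theorem measurable_glue {Z : Type*} [MeasurableSpace Z] (F : (Fin m → ℤ) → Vec m → Z)
    (hF : ∀ c, Measurable (F c)) (h : ℝ) : Measurable (glue F h) := by
  have h1 : Measurable (fun q : (Fin m → ℤ) × Vec m => F q.1 q.2) :=
    measurable_from_prod_countable_right hF
  exact h1.comp ((measurable_cell h).prodMk measurable_id)

theorem measurable_pw (b : Vec m → Vec m) (k : ℕ) (h : ℝ) (S : Set (Vec m)) :
    Measurable (pw b k h S) :=
  measurable_glue _ (fun _ => (pmap_contDiff _).continuous.measurable) h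

theorem measurable_pwd (b : Vec m → Vec m) (k : ℕ) (h : ℝ) (S : Set (Vec m)) :
    Measurable (pwd b k h S) :=
  measurable_glue _ (fun _ => measurable_fderiv ℝ _) h

/-- The cell is locally constant off the boundaries. -/
theorem cell_eventually {h : ℝ} {S : Set (Vec m)} {s : Vec m} (hs : s ∈ inner' h S) :
    ∀ᶠ s' in 𝓝 s, cell h s' = cell h s := by
  have h1 : ∀ j, ∀ᶠ s' : Vec m in 𝓝 s, ⌊s' j / h⌋ = ⌊s j / h⌋ := by
    intro j
    have hc : Continuous (fun s : Vec m => s j / h) := by fun_prop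
    have a1 : ((⌊s j / h⌋ : ℤ) : ℝ) < s j / h := lt_of_le_of_ne (Int.floor_le _) (hs.2 j).symm
    have a2 := Int.lt_floor_add_one (s j / h)
    have h2 : Ioo ((⌊s j / h⌋ : ℤ) : ℝ) ((⌊s j / h⌋ : ℤ) + 1) ∈ 𝓝 (s j / h) := Ioo_mem_nhds a1 a2
    filter_upwards [hc.continuousAt.preimage_mem_nhds h2] with s' hs'
    rw [Int.floor_eq_iff]
    exact ⟨hs'.1.le, hs'.2⟩
  filter_upwards [eventually_all.2 h1] with s' hs'
  funext j
  exact hs' j

theorem glue_hasFDerivAt (F : (Fin m → ℤ) → Vec m → Vec m) (F' : (Fin m → ℤ) → Vec m → Vec m →L[ℝ] Vec m)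
    (hF : ∀ c s, HasFDerivAt (F c) (F' c s) s) {h : ℝ} {S : Set (Vec m)}
    {s : Vec m} (hs : s ∈ inner' h S) : HasFDerivAt (glue F h) (glue F' h s) s := by
  apply (hF (cell h s) s).congr_of_eventuallyEq
  filter_upwards [cell_eventually hs] with s' hs'
  unfold glue
  rw [hs']

theorem pw_hasFDerivAt (b : Vec m → Vec m) (k : ℕ) {h : ℝ} {S : Set (Vec m)}
    {s : Vec m} (hs : s ∈ inner' h S) : HasFDerivAt (pw b k h S) (pwd b k h S s) s :=
  glue_hasFDerivAt _ _
    (fun _ s => ((pmap_contDiff _).differentiable one_ne_zero s).hasFDerivAt) hs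

/-- The boundaries of the cells are null sets. -/
theorem null_diff {h : ℝ} (hh : 0 < h) (S : Set (Vec m)) : volume (S \ inner' h S) = 0 := by
  have hsub : S \ inner' h S ⊆ ⋃ j : Fin m, ⋃ z : ℤ, {s : Vec m | s j = z * h} := by
    rintro s ⟨hs, hs'⟩
    have : ∃ j, s j / h = (⌊s j / h⌋ : ℝ) := by
      by_contra hcon
      push Not at hcon
      exact hs' ⟨hs, hcon⟩
    obtain ⟨j, hj⟩ := this
    rw [mem_iUnion]
    refine ⟨j, ?_⟩
    rw [mem_iUnion]
    refine ⟨⌊s j / h⌋, ?_⟩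
    show s j = _
    rw [← hj]
    field_simp
  refine measure_mono_null hsub (measure_iUnion_null fun j => measure_iUnion_null fun z => ?_)
  have h1 := Measure.pi_hyperplane (fun _ : Fin m => (volume : Measure ℝ)) j ((z : ℝ) * h)
  have h2 := (EuclideanSpace.volume_preserving_symm_measurableEquiv_toLp (Fin m))
  have h3 : MeasurableSet {f : Fin m → ℝ | f j = (z : ℝ) * h} :=
    measurableSet_eq_fun (measurable_pi_apply j) measurable_const
  have h4 := h2.measure_preimage h3.nullMeasurableSet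
  rw [← h4.trans h1]
  rfl

/-- A finite set of cells that covers `S`. -/
noncomputable def cells (m : ℕ) (h : ℝ) : Finset (Fin m → ℤ) :=
  Fintype.piFinset fun _ => Finset.Icc (-⌈1 / h⌉) ⌊1 / h⌋

theorem mem_cells {h : ℝ} (hh : 0 < h) {s : Vec m} (hs : ‖s‖ ≤ 1) : cell h s ∈ cells m h := by
  unfold cells
  rw [Fintype.mem_piFinset]
  intro j
  have h1 : |s j| ≤ 1 := by
    have := EuclideanSpace.norm_eq s
    have h2 : |s j| ≤ ‖s‖ := by
      have h3 := PiLp.norm_apply_le s j
      exact h3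
    exact h2.trans hs
  rw [abs_le] at h1
  rw [Finset.mem_Icc]
  constructor
  · show -⌈1 / h⌉ ≤ ⌊s j / h⌋
    rw [Int.le_floor]
    push_cast
    have h3 := Int.le_ceil (1 / h)
    have h4 : -(1 / h) ≤ s j / h := by
      rw [← neg_div]
      exact div_le_div_of_nonneg_right h1.1 hh.le
    linarith
  · show ⌊s j / h⌋ ≤ ⌊1 / h⌋
    apply Int.floor_le_floor
    exact div_le_div_of_nonneg_right h1.2 hh.le

theorem card_cells {h : ℝ} (hh : 0 < h) (hh1 : h ≤ 1) : ((cells m h).card : ℝ) ≤ (4 / h) ^ m := by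
  unfold cells
  rw [Fintype.card_piFinset]
  simp only [Finset.prod_const, Finset.card_univ, Fintype.card_fin]
  push_cast
  apply pow_le_pow_left₀ (Nat.cast_nonneg _)
  rw [Int.card_Icc]
  have h1 : 1 ≤ 1 / h := by
    rw [le_div_iff₀ hh]; linarith
  have h2 := Int.floor_le (1 / h)
  have h3 := Int.ceil_lt_add_one (1 / h)
  have h0 : (0 : ℤ) ≤ ⌊1 / h⌋ := Int.floor_nonneg.2 (by linarith)
  have h0' : (0 : ℤ) ≤ ⌈1 / h⌉ := Int.ceil_nonneg (by linarith)
  have h4 : (((⌊1 / h⌋ + 1 - -⌈1 / h⌉).toNat : ℕ) : ℝ) = (⌊1 / h⌋ : ℝ) + 1 + (⌈1 / h⌉ : ℝ) := by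
    have h5 : (((⌊1 / h⌋ + 1 - -⌈1 / h⌉).toNat : ℕ) : ℤ) = ⌊1 / h⌋ + 1 + ⌈1 / h⌉ := by
      rw [Int.toNat_of_nonneg (by omega)]
      ring
    have h6 : ((((⌊1 / h⌋ + 1 - -⌈1 / h⌉).toNat : ℕ) : ℤ) : ℝ) = ((⌊1 / h⌋ + 1 + ⌈1 / h⌉ : ℤ) : ℝ) := by
      rw [h5]
    push_cast at h6
    exact h6
  rw [h4]
  have h7 : 4 / h = 4 * (1 / h) := by ring
  rw [h7]
  linarith

/-- The overlap of a glued family. -/
theorem glue_overlap {M : ℕ} {h : ℝ} (hh : 0 < h) {S : Set (Vec m)}
    (hS1 : S ⊆ closedBall 0 1) (a b c : (Fin m → ℤ) → Vec m → Vec m)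
    (H : ∀ e ∈ cells m h, OverlapLE M univ univ (a e) (b e) (c e)) :
    OverlapLE ((cells m h).card * M) univ (inner' h S) (glue a h) (glue b h) (glue c h) := by
  unfold OverlapLE at H ⊢
  have h2 : ∀ᵐ p : ℝ × ℝ, ∀ e ∈ cells m h, p ∈ (univ : Set (ℝ × ℝ)) → ∀ᵐ z : Vec m,
      {s | s ∈ (univ : Set (Vec m)) ∧ pt (a e) (b e) (c e) p s = z}.encard ≤ M := by
    rw [eventually_all_finset]
    exact H
  filter_upwards [h2] with p hp _
  have h3 : ∀ᵐ z : Vec m, ∀ e ∈ cells m h,
      {s | s ∈ (univ : Set (Vec m)) ∧ pt (a e) (b e) (c e) p s = z}.encard ≤ M := by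
    rw [eventually_all_finset]
    exact fun e he => hp e he (mem_univ _)
  filter_upwards [h3] with z hz
  have hsub : {s | s ∈ inner' h S ∧ pt (glue a h) (glue b h) (glue c h) p s = z} ⊆
      ⋃ e ∈ cells m h, {s | s ∈ (univ : Set (Vec m)) ∧ pt (a e) (b e) (c e) p s = z} := by
    rintro s ⟨hs, hsz⟩
    rw [mem_iUnion₂]
    refine ⟨cell h s, mem_cells hh ?_, mem_univ _, ?_⟩
    · have := hS1 hs.1
      rwa [mem_closedBall, dist_zero_right] at this
    · exact hsz
  refine (encard_le_encard hsub).trans ((Finset.set_encard_biUnion_le _ _).trans ?_)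
  refine (Finset.sum_le_sum hz).trans ?_
  rw [Finset.sum_const, nsmul_eq_mul]
  push_cast
  exact le_rfl

/-- **The overlap of the approximating family.** -/
theorem pw_overlap (hm : 1 ≤ m) {k : ℕ} {h : ℝ} (hh : 0 < h) {S : Set (Vec m)}
    (hS1 : S ⊆ closedBall 0 1) (α β γ : Vec m → Vec m) :
    OverlapLE ((cells m h).card * ((k * m + 1) ^ m) ^ m) univ (inner' h S) (pw α k h S) (pw β k h S)
      (pw γ k h S) :=
  glue_overlap hh hS1 _ _ _ fun _ _ => poly_overlap hm univ _ _ _ (fun j => tpol_deg _ _ _ j)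
    (fun j => tpol_deg _ _ _ j) (fun j => tpol_deg _ _ _ j)

end Pool.Agent.X160.Ps
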