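import Pool.Agent.X160.Ps.Cell
set_option autoImplicit false

/-!
# The data of the main estimate for a smooth family
-/

open MeasureTheory Set Metric Filter Function
open scoped ENNReal NNReal Topology

namespace Pool.Agent.X160.Ps

open Pool.Agent.X160.Pf
open Pool.Agent.H810R3.Tub (pmap tpol tpol_eval tpol_deg)

variable {m : ℕ}

/-- the hypothesis on the derivatives -/
def Cb (k : ℕ) (A : ℝ) (b : Vec m → Vec m) : Prop :=
  ContDiff ℝ (k + 1 : ℕ) b ∧ ∀ j ≤ k + 1, ∀ s, ‖s‖ ≤ 1 → ‖iteratedFDeriv ℝ j b s‖ ≤ A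

theorem Cb.val {k : ℕ} {A : ℝ} {b : Vec m → Vec m} (H : Cb k A b) {s : Vec m} (hs : ‖s‖ ≤ 1) :
    ‖b s‖ ≤ A := by
  have := H.2 0 (Nat.zero_le _) s hs
  rwa [norm_iteratedFDeriv_zero] at this

theorem Cb.der {k : ℕ} {A : ℝ} {b : Vec m → Vec m} (H : Cb k A b) {s : Vec m} (hs : ‖s‖ ≤ 1) :
    ‖fderiv ℝ b s‖ ≤ A := by
  have := H.2 1 (by omega) s hs
  rwa [norm_iteratedFDeriv_one] at this

theorem Cb.close {k : ℕ} {A : ℝ} {b : Vec m → Vec m} (H : Cb k A b) (hm : 1 ≤ m) {h : ℝ}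
    (hh : 0 < h) {S : Set (Vec m)} (hS1 : S ⊆ closedBall 0 1) {s : Vec m} (hs : s ∈ S) :
    ‖b s - pw b k h S s‖ ≤ A * (m * h) ^ (k + 1) := by
  have h1 : ‖s‖ ≤ 1 := by simpa using hS1 hs
  have h2 : ‖ctr h S (cell h s)‖ ≤ 1 := by simpa using hS1 (ctr_spec (h := h) hs).1
  have h3 := taylor_bound H.1 (H.2 (k + 1) le_rfl) h1 h2
  have h4 : pw b k h S s = ∑ j ∈ Finset.range (k + 1), (j.factorial : ℝ)⁻¹ •
      iteratedFDeriv ℝ j b (ctr h S (cell h s)) (fun _ => s - ctr h S (cell h s)) :=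
    tpol_eval b k _ s
  rw [h4]
  refine h3.trans ?_
  have hA : 0 ≤ A := (norm_nonneg _).trans (H.val h1)
  have h5 := ctr_dist hh hs hm
  gcongr

theorem Cb.dclose {k : ℕ} {A : ℝ} {b : Vec m → Vec m} (H : Cb k A b) (hk : 1 ≤ k) (hm : 1 ≤ m)
    {h : ℝ} (hh : 0 < h) {S : Set (Vec m)} (hS1 : S ⊆ closedBall 0 1) {s : Vec m} (hs : s ∈ S) :
    ‖fderiv ℝ b s - pwd b k h S s‖ ≤ A * (m * h) ^ k := by
  have h1 : ‖s‖ ≤ 1 := by simpa using hS1 hs
  have h2 : ‖ctr h S (cell h s)‖ ≤ 1 := by simpa using hS1 (ctr_spec (h := h) hs).1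
  have h3 := taylor_deriv hk H.1 (H.2 (k + 1) le_rfl) h1 h2
  refine h3.trans ?_
  have hA : 0 ≤ A := (norm_nonneg _).trans (H.val h1)
  have h5 := ctr_dist hh hs hm
  gcongr

/-- Choice of a weight. -/
theorem exists_weight {X : Type*} [MeasurableSpace X] (μ : Measure X) [SigmaFinite μ] {E : Set X}
    (hE : MeasurableSet E) (J : X → ℝ) (mJ : Measurable J) {c : ℝ}
    (h : ENNReal.ofReal c < ∫⁻ q in E, ENNReal.ofReal (J q) ∂μ) :
    ∃ φ : X → ℝ≥0∞, Measurable φ ∧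
      (∀ q, φ q ≤ E.indicator (fun q => ENNReal.ofReal (J q)) q) ∧
      ∫⁻ q, φ q ∂μ = ENNReal.ofReal c := by
  set f : X → ℝ≥0 := E.indicator (fun q => (J q).toNNReal) with hf
  have hfe : ∀ q, (f q : ℝ≥0∞) = E.indicator (fun q => ENNReal.ofReal (J q)) q := by
    intro q
    by_cases hq : q ∈ E
    · rw [hf, indicator_of_mem hq, indicator_of_mem hq]; rfl
    · rw [hf, indicator_of_notMem hq, indicator_of_notMem hq]; rfl
  have hlt : ENNReal.ofReal c < ∫⁻ q, (f q : ℝ≥0∞) ∂μ := by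
    simp only [hfe]
    rw [lintegral_indicator hE]
    exact h
  obtain ⟨g, hg1, hg2, hg3⟩ := exists_lt_lintegral_simpleFunc_of_lt_lintegral hlt
  set I : ℝ≥0∞ := ∫⁻ q, (g q : ℝ≥0∞) ∂μ with hI
  have hI0 : I ≠ 0 := (lt_of_le_of_lt zero_le hg3).ne'
  have hgm : Measurable (fun q => (g q : ℝ≥0∞)) := g.measurable.coe_nnreal_ennreal
  refine ⟨fun q => ENNReal.ofReal c / I * (g q : ℝ≥0∞), hgm.const_mul _, ?_, ?_⟩
  · intro q
    rw [← hfe]
    have h1 : ENNReal.ofReal c / I ≤ 1 := by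
      rw [ENNReal.div_le_iff hI0 hg2.ne, one_mul]
      exact hg3.le
    calc ENNReal.ofReal c / I * (g q : ℝ≥0∞) ≤ 1 * (f q : ℝ≥0∞) := by
          gcongr
          exact hg1 q
      _ = _ := one_mul _
  · rw [lintegral_const_mul _ hgm, ← hI]
    exact ENNReal.div_mul_cancel hI0 hg2.ne

theorem measurable_Gm {β γ : Vec m → Vec m} (mβ : Measurable β) (mγ : Measurable γ) :
    Measurable (Gm β γ) := by
  unfold Gm
  exact ((mβ.comp measurable_fst).add (measurable_snd.smul (mγ.comp measurable_fst))).prodMk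
    measurable_snd

theorem measurable_pt' {α β γ : Vec m → Vec m}
    (mα : Measurable α) (mβ : Measurable β) (mγ : Measurable γ) (p : ℝ × ℝ) :
    Measurable (fun s => pt α β γ p s) := by
  unfold pt
  exact (mα.add (mβ.const_smul p.1)).add (mγ.const_smul p.2)

theorem measurableSet_param {S₀ : Set (Vec m)} (hS₀ : MeasurableSet S₀) {α β γ : Vec m → Vec m}
    (mα : Measurable α) (mβ : Measurable β) (mγ : Measurable γ) (v : Base m) (p : ℝ × ℝ)
    (Z : Vec m) (r R : ℝ) : MeasurableSet {q : Vec m × ℝ | q.1 ∈ S₀ ∧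
      (‖WithLp.toLp 2 (Gm β γ q) - v‖ < r ∧ ‖pt α β γ p q.1 - Z‖ ≤ R)} := by
  have h1 : MeasurableSet {q : Vec m × ℝ | q.1 ∈ S₀} := measurable_fst hS₀
  have h2 : MeasurableSet {q : Vec m × ℝ | ‖WithLp.toLp 2 (Gm β γ q) - v‖ < r} := by
    apply measurableSet_lt _ measurable_const
    exact (((WithLp.volume_preserving_toLp (Vec m) ℝ).measurable.comp
      (measurable_Gm mβ mγ)).sub_const _).norm
  have h3 : MeasurableSet {q : Vec m × ℝ | ‖pt α β γ p q.1 - Z‖ ≤ R} := by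
    apply measurableSet_le _ measurable_const
    exact (((measurable_pt' mα mβ mγ p).comp measurable_fst).sub_const _).norm
  exact h1.inter (h2.inter h3)

/-- Null sets of planes carry null sets of slopes, local version. -/
theorem null_slopes' {k : ℕ} {A : ℝ} {β γ : Vec m → Vec m} (hβ : Cb k A β) (hγ : Cb k A γ)
    {N : Set (Vec m)} (hN1 : N ⊆ closedBall 0 1) (hN : volume N = 0) :
    volume (Gm β γ '' (N ×ˢ univ)) = 0 := by
  have hlip : ∀ b : Vec m → Vec m, Cb k A b → ∃ (L : ℝ≥0) (b' : Vec m → Vec m),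
      LipschitzWith L b' ∧ EqOn b b' (closedBall 0 1) := by
    intro b hb
    have h0 : ContDiff ℝ 1 b := hb.1.of_le (by exact_mod_cast (by omega : 1 ≤ k + 1))
    have h1 := h0.locallyLipschitz.locallyLipschitzOn (s := closedBall (0 : Vec m) 1)
    obtain ⟨L, hL⟩ := LocallyLipschitzOn.exists_lipschitzOnWith_of_compact
      (isCompact_closedBall (0 : Vec m) 1) h1
    obtain ⟨b', hb', hbe⟩ := hL.extend_finite_dimension
    exact ⟨_, b', hb', hbe⟩
  obtain ⟨L₁, β', hβ', hβe⟩ := hlip β hβ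
  obtain ⟨L₂, γ', hγ', hγe⟩ := hlip γ hγ
  have h1 := null_slopes (hβ'.weaken (le_max_left L₁ L₂)) (hγ'.weaken (le_max_right L₁ L₂)) hN
  have e : Gm β γ '' (N ×ˢ univ) = Gm β' γ' '' (N ×ˢ univ) := by
    apply image_congr
    rintro ⟨s, η⟩ ⟨hs, _⟩
    unfold Gm
    rw [hβe (hN1 hs), hγe (hN1 hs)]
  rw [e]
  exact h1

end Pool.Agent.X160.Ps
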