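import Pool.Agent.X160.Ps.Data
set_option autoImplicit false

/-!
# The data of the main estimate for a smooth family
-/

open MeasureTheory Set Metric Filter Function
open scoped ENNReal NNReal Topology

namespace Pool.Agent.X160.Ps

open Pool.Agent.X160.Pf

variable {m : ℕ}

theorem base_norm_fst (a b : Vec m) (η : ℝ) :
    ‖(WithLp.toLp 2 (a, η) : Base m) - WithLp.toLp 2 (b, η)‖ = ‖a - b‖ := by
  rw [← WithLp.toLp_sub, WithLp.prod_norm_eq_of_L2]
  show √(‖a - b‖ ^ 2 + ‖η - η‖ ^ 2) = ‖a - b‖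
  simp

/-- the Jacobian of the slopes -/
noncomputable def Js (b c : Vec m → Vec m →L[ℝ] Vec m) (q : Vec m × ℝ) : ℝ :=
  |(b q.1 + q.2 • c q.1).det|

theorem measurable_Js {b c : Vec m → Vec m →L[ℝ] Vec m} (mb : Measurable b) (mc : Measurable c) :
    Measurable (Js b c) := by
  unfold Js
  apply Measurable.abs
  apply ContinuousLinearMap.continuous_det.measurable.comp
  exact (mb.comp measurable_fst).add (measurable_snd.smul (mc.comp measurable_fst))

/-- the parameters of the slopes near `v` -/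
def par (S₀ : Set (Vec m)) (α β γ : Vec m → Vec m) (v : Base m) (p : ℝ × ℝ) (Z : Vec m)
    (r R : ℝ) : Set (Vec m × ℝ) :=
  {q : Vec m × ℝ | q.1 ∈ S₀ ∧ (‖WithLp.toLp 2 (Gm β γ q) - v‖ < r ∧ ‖pt α β γ p q.1 - Z‖ ≤ R)}

/-- the slopes near `v` -/
def slo (S : Set (Vec m)) (α β γ : Vec m → Vec m) (v : Base m) (p : ℝ × ℝ) (Z : Vec m)
    (r R : ℝ) : Set (Base m) :=
  {w : Base m | ‖w - v‖ < r ∧ ∃ s ∈ S, w.fst = β s + w.snd • γ s ∧ ‖pt α β γ p s - Z‖ ≤ R}

theorem eta_bound {v : Base m} {β γ : Vec m → Vec m} {q : Vec m × ℝ} {r : ℝ}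
    (h : ‖WithLp.toLp 2 (Gm β γ q) - v‖ < r) : |q.2 - v.snd| < r :=
  (norm_snd_le' (WithLp.toLp 2 (Gm β γ q) - v)).trans_lt h

/-- The measure of the slopes is bounded by the integral of the Jacobian. -/
theorem slopes_le {k : ℕ} {A : ℝ} {α β γ : Vec m → Vec m} (hα : Cb k A α) (hβ : Cb k A β)
    (hγ : Cb k A γ) {S S₀ : Set (Vec m)} (hS₀ : MeasurableSet S₀) (hS1 : S ⊆ closedBall 0 1)
    (hn : volume (S \ S₀) = 0) (v : Base m) (p : ℝ × ℝ) (Z : Vec m) (r R : ℝ) :
    volume (slo S α β γ v p Z r R) ≤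
      ∫⁻ q in par S₀ α β γ v p Z r R, ENNReal.ofReal (Js (fderiv ℝ β) (fderiv ℝ γ) q) := by
  have dβ : Differentiable ℝ β := hβ.1.differentiable (by exact_mod_cast Nat.succ_ne_zero k)
  have dγ : Differentiable ℝ γ := hγ.1.differentiable (by exact_mod_cast Nat.succ_ne_zero k)
  have hE := measurableSet_param hS₀ hα.1.continuous.measurable hβ.1.continuous.measurable
    hγ.1.continuous.measurable v p Z r R
  have hsub : (WithLp.toLp 2 : Vec m × ℝ → Base m) ⁻¹' (slo S α β γ v p Z r R) ⊆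
      Gm β γ '' (par S₀ α β γ v p Z r R) ∪ Gm β γ '' ((S \ S₀) ×ˢ univ) := by
    rintro ⟨w1, w2⟩ ⟨hw1, s, hs, hw2, hw3⟩
    have hw2' : w1 = β s + w2 • γ s := hw2
    have hG : Gm β γ (s, w2) = (w1, w2) := by
      unfold Gm
      rw [hw2']
    by_cases hs0 : s ∈ S₀
    · left
      refine ⟨(s, w2), ⟨hs0, ?_, hw3⟩, hG⟩
      rw [hG]; exact hw1
    · right
      exact ⟨(s, w2), ⟨⟨hs, hs0⟩, mem_univ _⟩, hG⟩
  have hDD : volume (slo S α β γ v p Z r R) ≤
      volume ((WithLp.toLp 2 : Vec m × ℝ → Base m) ⁻¹' (slo S α β γ v p Z r R)) := by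
    have hmp := WithLp.volume_preserving_toLp (Vec m) ℝ
    exact (hmp.measure_preimage_emb
      (MeasurableEquiv.toLp 2 (Vec m × ℝ)).measurableEmbedding _).ge
  have hz := null_slopes' hβ hγ (N := S \ S₀) (sdiff_subset.trans hS1) hn
  have hder : ∀ q : Vec m × ℝ, ∃ L' : (Vec m × ℝ) →L[ℝ] (Vec m × ℝ),
      HasFDerivAt (Gm β γ) L' q ∧ L'.det = (fderiv ℝ β q.1 + q.2 • fderiv ℝ γ q.1).det :=
    fun q => Gm_deriv (dβ q.1).hasFDerivAt (dγ q.1).hasFDerivAt q.2
  choose L' hL' using hder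
  haveI : (volume : Measure (Vec m × ℝ)).IsAddHaarMeasure := by
    rw [Measure.volume_eq_prod]
    infer_instance
  calc volume (slo S α β γ v p Z r R)
      ≤ volume ((WithLp.toLp 2 : Vec m × ℝ → Base m) ⁻¹' (slo S α β γ v p Z r R)) := hDD
    _ ≤ volume (Gm β γ '' (par S₀ α β γ v p Z r R) ∪ Gm β γ '' ((S \ S₀) ×ˢ univ)) :=
        measure_mono hsub
    _ ≤ volume (Gm β γ '' (par S₀ α β γ v p Z r R)) + volume (Gm β γ '' ((S \ S₀) ×ˢ univ)) :=
        measure_union_le _ _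
    _ = volume (Gm β γ '' (par S₀ α β γ v p Z r R)) := by rw [hz, add_zero]
    _ ≤ ∫⁻ q in par S₀ α β γ v p Z r R, ENNReal.ofReal |(L' q).det| :=
        addHaar_image_le_lintegral_abs_det_fderiv volume hE
          (fun q _ => (hL' q).1.hasFDerivWithinAt)
    _ = _ := by
        apply lintegral_congr
        intro q
        rw [(hL' q).2]
        rfl

/-- **The data of the main estimate.** -/
theorem data (hm : 1 ≤ m) {k : ℕ} (hk : 1 ≤ k) {A K Λ θ δ L W₀ D ε₀ h : ℝ} (hA : 0 ≤ A)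
    (hK : 0 ≤ K) (hΛ : 0 ≤ Λ) (hθ : 0 < θ) (hδ : 0 < δ) (hδ1 : δ < 1) {S : Set (Vec m)}
    (hS : MeasurableSet S) (hS1 : S ⊆ closedBall 0 1) {α β γ : Vec m → Vec m} (hα : Cb k A α)
    (hβ : Cb k A β) (hγ : Cb k A γ) {ι : Type*} (v : ι → Base m) (x : ι → Space m)
    (hv : ∀ i, ‖v i‖ ≤ 1) (hx : ∀ i, |(x i).snd| ≤ Λ ∧ |(x i).fst.snd| ≤ Λ)
    (hsep : ∀ i j, i ≠ j → δ ≤ ‖v i - v j‖) (hc : ∀ i, Carried θ δ K S α β γ (v i) (x i))
    (hL : 0 < L) (hLe : volume (ball (0 : Base m) (δ / 2)) = ENNReal.ofReal (2 * L))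
    (hW : volume (closedBall (0 : Vec m) 1) = ENNReal.ofReal W₀) (hW0 : 0 ≤ W₀)
    (hD : ∀ (R : ℝ) (X Y : Vec m →L[ℝ] Vec m), ‖X‖ ≤ R → ‖Y‖ ≤ R →
      |X.det - Y.det| ≤ D * R ^ (m - 1) * ‖X - Y‖) (hD0 : 0 ≤ D)
    (hh : 0 < h) (hmh : m * h ≤ 1) (he1 : A * (m * h) ^ (k + 1) ≤ δ)
    (he2 : 3 * (A * (m * h) ^ (k + 1)) ≤ ε₀) (hε : ε₀ ≤ δ / 2)
    (hshell : ENNReal.ofReal (2 * L) ≤
      volume (ball (0 : Base m) (δ / 2 - ε₀)) + ENNReal.ofReal (θ * L / 2))
    (hdet : D * (6 * A) ^ (m - 1) * (3 * (A * (m * h) ^ k)) * (W₀ * δ) ≤ θ * L / 2) :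
    ∃ φ : ι → Vec m × ℝ → ℝ≥0∞,
      PF ((cells m h).card * ((k * m + 1) ^ m) ^ m) (A + 1) univ (inner' h S) (pw α k h S)
        (pw β k h S) (pw γ k h S) (pwd α k h S) (pwd β k h S) (pwd γ k h S) ∧
      TD δ (K + 1 + 2 * Λ) (θ / 2 * L) (inner' h S) (pw α k h S) (pw β k h S) (pw γ k h S)
        (pwd β k h S) (pwd γ k h S) v (fun i => (x i).snd) (fun i => (x i).fst.snd)
        (fun i => (x i).fst.fst) φ := by
  classical
  set S₀ := inner' h S with hS₀
  have hS₀m : MeasurableSet S₀ := measurableSet_inner hS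
  have hSS : ∀ s ∈ S₀, s ∈ S := fun s hs => hs.1
  have hn1 : ∀ s ∈ S₀, ‖s‖ ≤ 1 := fun s hs => by simpa using hS1 hs.1
  set e₁ : ℝ := A * (m * h) ^ (k + 1) with he₁
  have he₁0 : 0 ≤ e₁ := by positivity
  have cα : ∀ s ∈ S₀, ‖α s - pw α k h S s‖ ≤ e₁ := fun s hs => hα.close hm hh hS1 (hSS s hs)
  have cβ : ∀ s ∈ S₀, ‖β s - pw β k h S s‖ ≤ e₁ := fun s hs => hβ.close hm hh hS1 (hSS s hs)
  have cγ : ∀ s ∈ S₀, ‖γ s - pw γ k h S s‖ ≤ e₁ := fun s hs => hγ.close hm hh hS1 (hSS s hs)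
  have dβ : ∀ s ∈ S₀, ‖fderiv ℝ β s - pwd β k h S s‖ ≤ A * (m * h) ^ k :=
    fun s hs => hβ.dclose hk hm hh hS1 (hSS s hs)
  have dγ : ∀ s ∈ S₀, ‖fderiv ℝ γ s - pwd γ k h S s‖ ≤ A * (m * h) ^ k :=
    fun s hs => hγ.dclose hk hm hh hS1 (hSS s hs)
  have nβ : ∀ s ∈ S₀, ‖fderiv ℝ β s‖ ≤ A := fun s hs => hβ.der (hn1 s hs)
  have nγ : ∀ s ∈ S₀, ‖fderiv ℝ γ s‖ ≤ A := fun s hs => hγ.der (hn1 s hs)
  have hOv := pw_overlap hm (k := k) hh hS1 α β γ
  rw [← hS₀] at hOv
  have mα := measurable_pw α k h S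
  have mβ := measurable_pw β k h S
  have mγ := measurable_pw γ k h S
  have ma := measurable_pwd α k h S
  have mb := measurable_pwd β k h S
  have mc := measurable_pwd γ k h S
  have Dα : ∀ s ∈ S₀, HasFDerivWithinAt (pw α k h S) (pwd α k h S s) S₀ s :=
    fun s hs => (pw_hasFDerivAt α k hs).hasFDerivWithinAt
  have Dβ : ∀ s ∈ S₀, HasFDerivWithinAt (pw β k h S) (pwd β k h S s) S₀ s :=
    fun s hs => (pw_hasFDerivAt β k hs).hasFDerivWithinAt
  have Dγ : ∀ s ∈ S₀, HasFDerivWithinAt (pw γ k h S) (pwd γ k h S s) S₀ s :=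
    fun s hs => (pw_hasFDerivAt γ k hs).hasFDerivWithinAt
  generalize pw α k h S = α' at *
  generalize pw β k h S = β' at *
  generalize pw γ k h S = γ' at *
  generalize pwd α k h S = a' at *
  generalize pwd β k h S = b' at *
  generalize pwd γ k h S = c' at *
  have hPF : PF ((cells m h).card * ((k * m + 1) ^ m) ^ m) (A + 1) univ S₀ α' β' γ' a' b' c' := by
    refine ⟨hS₀m, Dα, Dβ, Dγ, ma, mb, mc, mα, mβ, mγ, hOv, ?_⟩
    intro s hs
    have h1 : ‖γ' s‖ ≤ ‖γ s‖ + ‖γ s - γ' s‖ := by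
      have := norm_sub_le (γ s) (γ s - γ' s)
      rwa [sub_sub_cancel] at this
    have h2 := hγ.val (hn1 s hs)
    have h3 := cγ s hs
    linarith
  -- comparison of the Jacobians
  set e₂ : ℝ := D * (6 * A) ^ (m - 1) * (3 * (A * (m * h) ^ k)) with he₂
  have he₂0 : 0 ≤ e₂ := by positivity
  have hJ : ∀ q : Vec m × ℝ, q.1 ∈ S₀ → |q.2| ≤ 2 →
      Js (fderiv ℝ β) (fderiv ℝ γ) q ≤ Js b' c' q + e₂ := by
    intro q hq hη
    unfold Js
    set X := fderiv ℝ β q.1 + q.2 • fderiv ℝ γ q.1 with hX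
    set Y := b' q.1 + q.2 • c' q.1 with hY
    have hmhk : (m * h) ^ k ≤ 1 := pow_le_one₀ (by positivity) hmh
    have h1 : ‖X - Y‖ ≤ 3 * (A * (m * h) ^ k) := by
      have e : X - Y = (fderiv ℝ β q.1 - b' q.1) + q.2 • (fderiv ℝ γ q.1 - c' q.1) := by
        rw [hX, hY, smul_sub]
        abel
      rw [e]
      refine (norm_add_le _ _).trans ?_
      rw [norm_smul, Real.norm_eq_abs]
      have h2 := dβ q.1 hq
      have h3 := dγ q.1 hq
      have h4 : |q.2| * ‖fderiv ℝ γ q.1 - c' q.1‖ ≤ 2 * (A * (m * h) ^ k) :=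
        mul_le_mul hη h3 (norm_nonneg _) (by norm_num)
      linarith
    have h2 : ‖X‖ ≤ 3 * A := by
      refine (norm_add_le _ _).trans ?_
      rw [norm_smul, Real.norm_eq_abs]
      have h3 := nβ q.1 hq
      have h4 : |q.2| * ‖fderiv ℝ γ q.1‖ ≤ 2 * A :=
        mul_le_mul hη (nγ q.1 hq) (norm_nonneg _) (by norm_num)
      linarith
    have h3 : ‖Y‖ ≤ 6 * A := by
      have h4 : ‖Y‖ ≤ ‖X‖ + ‖X - Y‖ := by
        have := norm_sub_le X (X - Y)
        rwa [sub_sub_cancel] at this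
      have h5 : A * (m * h) ^ k ≤ A * 1 := by gcongr
      linarith
    have h4 := hD (6 * A) X Y (h2.trans (by linarith)) h3
    have h5 : D * (6 * A) ^ (m - 1) * ‖X - Y‖ ≤ e₂ := by
      rw [he₂]
      gcongr
    have h6 := abs_abs_sub_abs_le X.det Y.det
    have h7 := le_abs_self (|X.det| - |Y.det|)
    linarith
  -- the weights
  have hφ : ∀ i, ∃ φ : Vec m × ℝ → ℝ≥0∞, Measurable φ ∧
      (∀ q, φ q ≤ (par S₀ α' β' γ' (v i) ((x i).snd, (x i).fst.snd) (x i).fst.fst (δ / 2)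
        ((K + 1 + 2 * Λ) * δ)).indicator (fun q => ENNReal.ofReal (Js b' c' q)) q) ∧
      ∫⁻ q, φ q = ENNReal.ofReal (θ / 2 * L) := by
    intro i
    set p : ℝ × ℝ := ((x i).snd, (x i).fst.snd) with hp
    have hp1 : |p.1| ≤ Λ := (hx i).1
    have hp2 : |p.2| ≤ Λ := (hx i).2
    set Z : Vec m := (x i).fst.fst with hZ
    set E' := par S₀ α β γ (v i) p Z (δ / 2 - ε₀) (K * δ) with hE'
    set E := par S₀ α' β' γ' (v i) p Z (δ / 2) ((K + 1 + 2 * Λ) * δ) with hE
    have hE'm : MeasurableSet E' := measurableSet_param hS₀m hα.1.continuous.measurable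
      hβ.1.continuous.measurable hγ.1.continuous.measurable (v i) p Z _ _
    have hEm : MeasurableSet E := measurableSet_param hS₀m mα mβ mγ (v i) p Z _ _
    have hε0 : 0 ≤ ε₀ := by linarith
    have hvs : |(v i).snd| ≤ 1 := (norm_snd_le' (v i)).trans (hv i)
    have hη : ∀ q ∈ E', |q.2 - (v i).snd| < δ / 2 ∧ |q.2| ≤ 2 := by
      intro q hq
      have h1 : |q.2 - (v i).snd| < δ / 2 - ε₀ := eta_bound hq.2.1
      refine ⟨by linarith, ?_⟩
      have h2 : |q.2| ≤ |q.2 - (v i).snd| + |(v i).snd| := by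
        have := abs_add_le (q.2 - (v i).snd) (v i).snd
        rwa [sub_add_cancel] at this
      linarith
    have hsub : E' ⊆ E := by
      intro q hq
      obtain ⟨_, hq5⟩ := hη q hq
      obtain ⟨hq1, hq2, hq3⟩ := hq
      refine ⟨hq1, ?_, ?_⟩
      · have h1 : ‖(WithLp.toLp 2 (Gm β' γ' q) : Base m) - WithLp.toLp 2 (Gm β γ q)‖ ≤ 3 * e₁ := by
          have h2 := base_norm_fst (β' q.1 + q.2 • γ' q.1) (β q.1 + q.2 • γ q.1) q.2
          refine h2.le.trans ?_
          have e : β' q.1 + q.2 • γ' q.1 - (β q.1 + q.2 • γ q.1) =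
              -((β q.1 - β' q.1) + q.2 • (γ q.1 - γ' q.1)) := by module
          rw [e, norm_neg]
          refine (norm_add_le _ _).trans ?_
          rw [norm_smul, Real.norm_eq_abs]
          have h3 := cβ q.1 hq1
          have h4 : |q.2| * ‖γ q.1 - γ' q.1‖ ≤ 2 * e₁ :=
            mul_le_mul hq5 (cγ q.1 hq1) (norm_nonneg _) (by norm_num)
          linarith
        have h2 := norm_add_le ((WithLp.toLp 2 (Gm β' γ' q) : Base m) - WithLp.toLp 2 (Gm β γ q))
          ((WithLp.toLp 2 (Gm β γ q) : Base m) - v i)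
        rw [sub_add_sub_cancel] at h2
        linarith
      · have h1 : ‖pt α' β' γ' p q.1 - pt α β γ p q.1‖ ≤ (1 + 2 * Λ) * δ := by
          have e : pt α' β' γ' p q.1 - pt α β γ p q.1 = -((α q.1 - α' q.1) +
              p.1 • (β q.1 - β' q.1) + p.2 • (γ q.1 - γ' q.1)) := by
            unfold pt
            module
          rw [e, norm_neg]
          refine (norm_add₃_le).trans ?_
          rw [norm_smul, norm_smul, Real.norm_eq_abs, Real.norm_eq_abs]
          have h3 : |p.1| * ‖β q.1 - β' q.1‖ ≤ Λ * e₁ :=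
            mul_le_mul hp1 (cβ q.1 hq1) (norm_nonneg _) hΛ
          have h4 : |p.2| * ‖γ q.1 - γ' q.1‖ ≤ Λ * e₁ :=
            mul_le_mul hp2 (cγ q.1 hq1) (norm_nonneg _) hΛ
          have h5 := cα q.1 hq1
          have h6 : Λ * e₁ ≤ Λ * δ := by gcongr
          linarith
        have h2 := norm_add_le (pt α' β' γ' p q.1 - pt α β γ p q.1) (pt α β γ p q.1 - Z)
        rw [sub_add_sub_cancel] at h2
        refine h2.trans ?_
        linarith
    -- the measure of the parameters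
    have hvolE : volume E' ≤ ENNReal.ofReal (W₀ * δ) := by
      have h1 : E' ⊆ closedBall (0 : Vec m) 1 ×ˢ Icc ((v i).snd - δ / 2) ((v i).snd + δ / 2) := by
        intro q hq
        obtain ⟨h2, _⟩ := hη q hq
        rw [abs_lt] at h2
        refine ⟨hS1 (hSS _ hq.1), ?_, ?_⟩ <;> linarith
      refine (measure_mono h1).trans ?_
      rw [Measure.volume_eq_prod, Measure.prod_prod, hW, Real.volume_Icc,
        ENNReal.ofReal_mul hW0]
      apply le_of_eq
      congr 2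
      ring
    -- the slopes
    have hslo : ENNReal.ofReal (θ * (2 * L)) ≤
        volume (slo S α β γ (v i) p Z (δ / 2 - ε₀) (K * δ)) + ENNReal.ofReal (θ * L / 2) := by
      have h1 := hc i
      unfold Carried at h1
      rw [Measure.addHaar_ball_center volume (v i) (δ / 2), hLe, ← ENNReal.ofReal_mul hθ.le] at h1
      refine h1.trans ?_
      have h2 : {w : Base m | ‖w - v i‖ < δ / 2 ∧ ∃ s ∈ S, w.fst = β s + w.snd • γ s ∧
          ‖pt α β γ ((x i).snd, (x i).fst.snd) s - (x i).fst.fst‖ ≤ K * δ} ⊆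
          slo S α β γ (v i) p Z (δ / 2 - ε₀) (K * δ) ∪
            (ball (v i) (δ / 2) \ ball (v i) (δ / 2 - ε₀)) := by
        rintro w ⟨hw1, s, hs, hw2, hw3⟩
        by_cases hw : ‖w - v i‖ < δ / 2 - ε₀
        · left
          exact ⟨hw, s, hs, hw2, hw3⟩
        · right
          refine ⟨?_, ?_⟩
          · rw [mem_ball, dist_eq_norm]; exact hw1
          · rw [mem_ball, dist_eq_norm]; exact hw
      refine (measure_mono h2).trans ((measure_union_le _ _).trans ?_)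
      gcongr
      have h3 : ball (v i) (δ / 2 - ε₀) ⊆ ball (v i) (δ / 2) := ball_subset_ball (by linarith)
      rw [measure_sdiff h3 measurableSet_ball.nullMeasurableSet measure_ball_lt_top.ne,
        Measure.addHaar_ball_center volume (v i) (δ / 2),
        Measure.addHaar_ball_center volume (v i) (δ / 2 - ε₀), hLe]
      rw [tsub_le_iff_right, add_comm]
      exact hshell
    have h1 := slopes_le hα hβ hγ hS₀m hS1 (null_diff (m := m) (h := h) hh S) (v i) p Z
      (δ / 2 - ε₀) (K * δ)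
    have h2 : ∫⁻ q in E', ENNReal.ofReal (Js (fderiv ℝ β) (fderiv ℝ γ) q) ≤
        (∫⁻ q in E, ENNReal.ofReal (Js b' c' q)) + ENNReal.ofReal (θ * L / 2) := by
      calc ∫⁻ q in E', ENNReal.ofReal (Js (fderiv ℝ β) (fderiv ℝ γ) q)
          ≤ ∫⁻ q in E', (ENNReal.ofReal (Js b' c' q) + ENNReal.ofReal e₂) := by
            apply setLIntegral_mono' hE'm
            intro q hq
            have hJ0 : 0 ≤ Js b' c' q := abs_nonneg _
            rw [← ENNReal.ofReal_add hJ0 he₂0]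
            exact ENNReal.ofReal_le_ofReal (hJ q hq.1 (hη q hq).2)
        _ = (∫⁻ q in E', ENNReal.ofReal (Js b' c' q)) + ENNReal.ofReal e₂ * volume E' := by
            rw [lintegral_add_right _ measurable_const, setLIntegral_const]
        _ ≤ (∫⁻ q in E, ENNReal.ofReal (Js b' c' q)) +
              ENNReal.ofReal e₂ * ENNReal.ofReal (W₀ * δ) := by
            gcongr
        _ ≤ _ := by
            gcongr
            rw [← ENNReal.ofReal_mul he₂0]
            exact ENNReal.ofReal_le_ofReal hdet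
    have h3 : ENNReal.ofReal (θ * (2 * L)) ≤
        (∫⁻ q in E, ENNReal.ofReal (Js b' c' q)) + ENNReal.ofReal (θ * L) := by
      calc ENNReal.ofReal (θ * (2 * L)) ≤ _ := hslo
        _ ≤ ((∫⁻ q in E, ENNReal.ofReal (Js b' c' q)) + ENNReal.ofReal (θ * L / 2)) +
            ENNReal.ofReal (θ * L / 2) := by
            gcongr
            exact h1.trans h2
        _ = _ := by
            rw [add_assoc, ← ENNReal.ofReal_add (by positivity) (by positivity)]
            congr 2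
            ring
    have h4 : ENNReal.ofReal (θ * L) ≤ ∫⁻ q in E, ENNReal.ofReal (Js b' c' q) := by
      have h5 : ENNReal.ofReal (θ * (2 * L)) = ENNReal.ofReal (θ * L) + ENNReal.ofReal (θ * L) := by
        rw [← ENNReal.ofReal_add (by positivity) (by positivity)]
        congr 1
        ring
      rw [h5] at h3
      exact (ENNReal.add_le_add_iff_right ENNReal.ofReal_ne_top).1 h3
    apply exists_weight volume hEm _ (measurable_Js mb mc)
    refine lt_of_lt_of_le ?_ h4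
    rw [ENNReal.ofReal_lt_ofReal_iff (by positivity)]
    have : 0 < θ * L := by positivity
    linarith
  choose φ hφ1 hφ2 hφ3 using hφ
  refine ⟨φ, hPF, ?_⟩
  have hin : ∀ i s η, φ i (s, η) ≠ 0 → (s, η) ∈ par S₀ α' β' γ' (v i)
      ((x i).snd, (x i).fst.snd) (x i).fst.fst (δ / 2) ((K + 1 + 2 * Λ) * δ) := by
    intro i s η h
    by_contra hq
    have := hφ2 i (s, η)
    rw [indicator_of_notMem hq, nonpos_iff_eq_zero] at this
    exact h this
  refine ⟨hδ, by positivity, by positivity, hsep, hφ1, ?_, ?_, hφ3⟩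
  · intro i s η h
    exact hin i s η h
  · intro i s η
    by_cases h : φ i (s, η) = 0
    · rw [h]; exact zero_le
    · have := hφ2 i (s, η)
      rw [indicator_of_mem (hin i s η h)] at this
      exact this

end Pool.Agent.X160.Ps
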