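import Pool.Agent.X160.Ps.Sym
set_option autoImplicit false

/-!
# Determinants of nearby maps
-/

open MeasureTheory Set Metric Filter Function
open scoped ENNReal NNReal

namespace Pool.Agent.X160.Ps

variable {m : ℕ}

theorem contDiff_det' : ContDiff ℝ 1 (fun X : EuclideanSpace ℝ (Fin m) →L[ℝ] EuclideanSpace ℝ (Fin m) => X.det) := by
  have h : ∀ X : EuclideanSpace ℝ (Fin m) →L[ℝ] EuclideanSpace ℝ (Fin m), X.det =
      ∑ σ : Equiv.Perm (Fin m), Equiv.Perm.sign σ •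
        ∏ i, (X (EuclideanSpace.single i (1:ℝ))) (σ i) := by
    intro X
    rw [ContinuousLinearMap.det, ← LinearMap.det_toMatrix (EuclideanSpace.basisFun (Fin m) ℝ).toBasis,
      Matrix.det_apply]
    rfl
  simp_rw [h]
  apply ContDiff.sum
  intro σ _
  have h2 : ∀ (X : EuclideanSpace ℝ (Fin m) →L[ℝ] EuclideanSpace ℝ (Fin m)),
      Equiv.Perm.sign σ • ∏ i, (X (EuclideanSpace.single i (1:ℝ))) (σ i) =
      ((Equiv.Perm.sign σ : ℤ) : ℝ) * ∏ i, (X (EuclideanSpace.single i (1:ℝ))) (σ i) := by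
    intro X
    rw [Units.smul_def, zsmul_eq_mul]
  simp_rw [h2]
  apply ContDiff.mul contDiff_const
  apply contDiff_prod
  intro i _
  have h3 : (fun X : EuclideanSpace ℝ (Fin m) →L[ℝ] EuclideanSpace ℝ (Fin m) =>
      (X (EuclideanSpace.single i (1:ℝ))) (σ i)) = fun X =>
      (EuclideanSpace.proj (σ i) : EuclideanSpace ℝ (Fin m) →L[ℝ] ℝ)
        ((ContinuousLinearMap.apply ℝ (EuclideanSpace ℝ (Fin m)) (EuclideanSpace.single i (1:ℝ))) X) := rfl
  rw [h3]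
  exact ((EuclideanSpace.proj (σ i) : EuclideanSpace ℝ (Fin m) →L[ℝ] ℝ).comp
    (ContinuousLinearMap.apply ℝ (EuclideanSpace ℝ (Fin m)) (EuclideanSpace.single i (1:ℝ)))).contDiff

/-- Determinants of nearby maps are close. -/
theorem det_close (hm : 1 ≤ m) : ∃ D : ℝ, 0 < D ∧ ∀ (R : ℝ)
    (X Y : EuclideanSpace ℝ (Fin m) →L[ℝ] EuclideanSpace ℝ (Fin m)), ‖X‖ ≤ R → ‖Y‖ ≤ R →
    |X.det - Y.det| ≤ D * R ^ (m - 1) * ‖X - Y‖ := by
  have h1 := (contDiff_det' (m := m)).locallyLipschitz.locallyLipschitzOn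
    (s := closedBall (0 : EuclideanSpace ℝ (Fin m) →L[ℝ] EuclideanSpace ℝ (Fin m)) 1)
  obtain ⟨L, hL⟩ := LocallyLipschitzOn.exists_lipschitzOnWith_of_compact
    (isCompact_closedBall _ _) h1
  refine ⟨L + 1, by positivity, ?_⟩
  intro R X Y hX hY
  have hR0 : 0 ≤ R := (norm_nonneg _).trans hX
  rcases hR0.eq_or_lt with hR | hR
  · have hX0 : X = 0 := by
      rw [← norm_le_zero_iff, hR]; exact hX
    have hY0 : Y = 0 := by
      rw [← norm_le_zero_iff, hR]; exact hY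
    rw [hX0, hY0]
    simp
  · have hs : ∀ Z : EuclideanSpace ℝ (Fin m) →L[ℝ] EuclideanSpace ℝ (Fin m),
        Z.det = R ^ m * (R⁻¹ • Z).det := by
      intro Z
      have h2 : (R⁻¹ • Z).det = (R⁻¹) ^ m * Z.det := by
        have := LinearMap.det_smul R⁻¹ (Z : EuclideanSpace ℝ (Fin m) →ₗ[ℝ] EuclideanSpace ℝ (Fin m))
        rw [finrank_euclideanSpace_fin] at this
        exact this
      rw [h2, inv_pow, ← mul_assoc, mul_inv_cancel₀ (by positivity), one_mul]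
    have hb : ∀ Z : EuclideanSpace ℝ (Fin m) →L[ℝ] EuclideanSpace ℝ (Fin m), ‖Z‖ ≤ R →
        R⁻¹ • Z ∈ closedBall (0 : EuclideanSpace ℝ (Fin m) →L[ℝ] EuclideanSpace ℝ (Fin m)) 1 := by
      intro Z hZ
      rw [mem_closedBall, dist_zero_right, norm_smul, norm_inv, Real.norm_of_nonneg hR.le,
        inv_mul_le_iff₀ hR, mul_one]
      exact hZ
    have h3 := hL.dist_le_mul _ (hb X hX) _ (hb Y hY)
    have e2 : ‖R⁻¹ • X - R⁻¹ • Y‖ = R⁻¹ * ‖X - Y‖ := by
      have e3 : R⁻¹ • X - R⁻¹ • Y = R⁻¹ • (X - Y) := by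
        ext z
        simp [mul_sub]
      rw [e3, norm_smul, norm_inv, Real.norm_of_nonneg hR.le]
    rw [Real.dist_eq, dist_eq_norm, e2] at h3
    have e : R ^ m = R ^ (m - 1) * R := by
      rw [← pow_succ]
      congr 1
      omega
    rw [hs X, hs Y, ← mul_sub, abs_mul, abs_of_nonneg (by positivity)]
    calc R ^ m * |(R⁻¹ • X).det - (R⁻¹ • Y).det| ≤ R ^ m * (L * (R⁻¹ * ‖X - Y‖)) := by gcongr
      _ = L * R ^ (m - 1) * ‖X - Y‖ := by
          rw [e]
          field_simp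
      _ ≤ (L + 1) * R ^ (m - 1) * ‖X - Y‖ := by
          gcongr
          linarith

end Pool.Agent.X160.Ps
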