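import Pool.Agent.X160.Ps.FinData
set_option autoImplicit false

/-!
# Choice of the scale
-/

open MeasureTheory Set Metric Filter Function
open scoped ENNReal NNReal Topology

namespace Pool.Agent.X160.Ps

open Pool.Agent.X160.Pf

variable {m : ℕ}

theorem pow_le_self' {x : ℝ} (h0 : 0 ≤ x) (h1 : x ≤ 1) {n : ℕ} (hn : 1 ≤ n) : x ^ n ≤ x := by
  have := pow_le_pow_of_le_one h0 h1 hn
  rwa [pow_one] at this

theorem div_pow_le_one {A : ℝ} (hA : 0 ≤ A) {n : ℕ} (hn : 1 ≤ n) : A / (1 + A) ^ n ≤ 1 := by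
  rw [div_le_one (by positivity)]
  have h1 : (1 + A) ^ 1 ≤ (1 + A) ^ n := pow_le_pow_right₀ (by linarith) hn
  rw [pow_one] at h1
  linarith

/-- the scale -/
theorem exists_scale (hm : 1 ≤ m) {k : ℕ} (hk : 1 ≤ k) {c A θ δ : ℝ} (hc : 0 < c) (hc1 : c ≤ 1)
    (hA : 0 ≤ A) (hθ : 0 < θ) (hθ1 : θ ≤ 1) (hδ : 0 < δ) (hδ1 : δ < 1) :
    ∃ u : ℝ, 0 < u ∧ u ≤ 1 ∧ u ^ k = c * θ * δ ^ m / (1 + A) ^ m ∧
      A * u ^ (k + 1) ≤ c * θ * δ ∧ ∀ s : ℝ, 0 ≤ s → u ^ (-s) =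
        c ^ (-(s / k)) * θ ^ (-(s / k)) * δ ^ (-(m * s / k)) * (1 + A) ^ (m * s / k) := by
  have hk0 : (0 : ℝ) < k := by exact_mod_cast hk
  set w : ℝ := c * θ * δ ^ m / (1 + A) ^ m with hw
  have hw0 : 0 < w := by positivity
  have hδm : δ ^ m ≤ δ := pow_le_self' hδ.le hδ1.le hm
  have hδm1 : δ ^ m ≤ 1 := hδm.trans hδ1.le
  have h1A : 1 ≤ (1 + A) ^ m := one_le_pow₀ (by linarith)
  have hw1 : w ≤ 1 := by
    rw [hw, div_le_one (by positivity)]
    have : c * θ * δ ^ m ≤ 1 * 1 * 1 := by gcongr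
    linarith
  set u : ℝ := w ^ (1 / (k : ℝ)) with hu
  have hu0 : 0 < u := by positivity
  have hu1 : u ≤ 1 := Real.rpow_le_one hw0.le hw1 (by positivity)
  have huk : u ^ k = w := by
    rw [hu, ← Real.rpow_natCast, ← Real.rpow_mul hw0.le]
    have : 1 / (k : ℝ) * k = 1 := by field_simp
    rw [this, Real.rpow_one]
  refine ⟨u, hu0, hu1, huk, ?_, ?_⟩
  · rw [pow_succ, huk]
    have h1 := div_pow_le_one hA hm
    calc A * (w * u) ≤ A * (w * 1) := by gcongr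
      _ = c * θ * δ ^ m * (A / (1 + A) ^ m) := by
          rw [hw]
          field_simp
      _ ≤ c * θ * δ * 1 := by gcongr
      _ = _ := mul_one _
  · intro s hs
    rw [hu, ← Real.rpow_mul hw0.le, hw, Real.div_rpow (by positivity) (by positivity),
      Real.mul_rpow (by positivity) (by positivity), Real.mul_rpow hc.le hθ.le]
    have e1 : 1 / (k : ℝ) * -s = -(s / k) := by ring
    rw [e1]
    have e2 : (δ ^ m) ^ (-(s / k)) = δ ^ (-(m * s / k)) := by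
      rw [← Real.rpow_natCast, ← Real.rpow_mul hδ.le]
      congr 1
      ring
    have e3 : ((1 + A) ^ m) ^ (-(s / k)) = ((1 + A) ^ (m * s / k))⁻¹ := by
      rw [← Real.rpow_natCast, ← Real.rpow_mul (by linarith), ← Real.rpow_neg (by linarith)]
      congr 1
      ring
    rw [e2, e3, div_inv_eq_mul]

/-- The volume of the shell. -/
theorem shell {δ θ L V0 : ℝ} (hδ : 0 < δ) (hθ : 0 < θ) (hθ1 : θ ≤ 1) (hV0 : 0 < V0)
    (hV : volume (ball (0 : Base m) 1) = ENNReal.ofReal V0)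
    (hL : L = (δ / 2) ^ (m + 1) * V0 / 2) :
    ENNReal.ofReal (2 * L) ≤
      volume (ball (0 : Base m) (δ / 2 - θ * δ / (8 * (m + 1)))) + ENNReal.ofReal (θ * L / 2) := by
  have hm0 : (0 : ℝ) < (m : ℝ) + 1 := by positivity
  have hL0 : 0 < L := by rw [hL]; positivity
  set ε : ℝ := θ * δ / (8 * (m + 1)) with hε
  have hε1 : ε ≤ δ / 8 := by
    rw [hε, div_le_div_iff₀ (by positivity) (by norm_num)]
    have : θ * δ ≤ 1 * δ := by gcongr
    have h2 : (0 : ℝ) ≤ m := Nat.cast_nonneg m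
    nlinarith
  have hr : 0 ≤ δ / 2 - ε := by linarith
  rw [Measure.addHaar_ball _ _ hr, finrank_base, hV, ← ENNReal.ofReal_mul (by positivity),
    ← ENNReal.ofReal_add (by positivity) (by positivity)]
  apply ENNReal.ofReal_le_ofReal
  have h1 : (δ / 2 - ε) = (δ / 2) * (1 + (-(θ / (4 * (m + 1))))) := by
    rw [hε]
    field_simp
    ring
  have h2 : -2 ≤ -(θ / (4 * ((m : ℝ) + 1))) := by
    rw [neg_le_neg_iff, div_le_iff₀ (by positivity)]
    have h2 : (0 : ℝ) ≤ m := Nat.cast_nonneg m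
    nlinarith
  have h3 := one_add_mul_le_pow h2 (m + 1)
  have h4 : 1 + ((m + 1 : ℕ) : ℝ) * (-(θ / (4 * ((m : ℝ) + 1)))) = 1 - θ / 4 := by
    push_cast
    field_simp
    ring
  rw [h4] at h3
  rw [h1, mul_pow]
  have h5 : (δ / 2) ^ (m + 1) * (1 - θ / 4) * V0 ≤
      (δ / 2) ^ (m + 1) * (1 + (-(θ / (4 * ((m : ℝ) + 1))))) ^ (m + 1) * V0 := by gcongr
  have h6 : (δ / 2) ^ (m + 1) * V0 = 2 * L := by rw [hL]; ring
  have h7 : (δ / 2) ^ (m + 1) * (1 - θ / 4) * V0 = 2 * L * (1 - θ / 4) := by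
    rw [← h6]; ring
  rw [h7] at h5
  linarith

/-- The proportion is at most one. -/
theorem theta_le_one {θ δ K : ℝ} (hδ : 0 < δ) {S : Set (Vec m)}
    {α β γ : Vec m → Vec m} {v : Base m} {x : Space m} (h : Carried θ δ K S α β γ v x) : θ ≤ 1 := by
  unfold Carried at h
  have h1 : volume {w : Base m | ‖w - v‖ < δ / 2 ∧ ∃ s ∈ S, w.fst = β s + w.snd • γ s ∧
      ‖pt α β γ (x.snd, x.fst.snd) s - x.fst.fst‖ ≤ K * δ} ≤ volume (ball v (δ / 2)) := by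
    apply measure_mono
    rintro w ⟨hw, _⟩
    rw [mem_ball, dist_eq_norm]
    exact hw
  have h2 := h.trans h1
  have h3 : volume (ball v (δ / 2)) ≠ 0 := (measure_ball_pos volume _ (by positivity)).ne'
  have h4 : ENNReal.ofReal θ * volume (ball v (δ / 2)) ≤ 1 * volume (ball v (δ / 2)) := by
    rw [one_mul]; exact h2
  have h5 := (ENNReal.mul_le_mul_iff_left h3 measure_ball_lt_top.ne).1 h4
  rwa [ENNReal.ofReal_le_one] at h5

/-- Constant. -/
noncomputable def cc (m : ℕ) (D : ℝ) : ℝ :=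
  min (1 / (24 * ((m : ℝ) + 1))) ((volume (ball (0 : Base m) 1)).toReal /
    (2 ^ (m + 3) * (3 * 6 ^ (m - 1) * D * (volume (closedBall (0 : Vec m) 1)).toReal)))

/-- Constant. -/
noncomputable def CS (m k : ℕ) (r D : ℝ) : ℝ :=
  max (Cf m r) 1 * (2 * ((((k * m + 1) ^ m) ^ m : ℕ) : ℝ) * (4 * m) ^ m) ^ r *
    cc m D ^ (-(m * r / k)) * 2 * 3 ^ (4 * m)

/-- **The inequality in integral form.** -/
theorem smooth_final (hm : 1 ≤ m) {r q : ℝ} (hr : 1 < ((m : ℝ) + 1) * r) (hr1 : r ≤ 1)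
    (hrq : r + 1 ≤ q) {k : ℕ} (hk : 1 ≤ k) {D : ℝ} (hD0 : 0 < D)
    (hD : ∀ (R : ℝ) (X Y : Vec m →L[ℝ] Vec m), ‖X‖ ≤ R → ‖Y‖ ≤ R →
      |X.det - Y.det| ≤ D * R ^ (m - 1) * ‖X - Y‖)
    {A K Λ θ δ : ℝ} (hA : 0 ≤ A) (hK : 0 ≤ K) (hΛ : 0 ≤ Λ)
    (hθ : 0 < θ) (hδ : 0 < δ) (hδ1 : δ < 1) {S : Set (Vec m)}
    (hS : MeasurableSet S) (hS1 : S ⊆ closedBall 0 1) {α β γ : Vec m → Vec m} (hα : Cb k A α)
    (hβ : Cb k A β) (hγ : Cb k A γ) {ι : Type} [Fintype ι] (v : ι → Base m) (x : ι → Space m)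
    (hv : ∀ i, ‖v i‖ ≤ 1) (hx : ∀ i, |(x i).snd| ≤ Λ ∧ |(x i).fst.snd| ≤ Λ)
    (hsep : ∀ i j, i ≠ j → δ ≤ ‖dir (v i) - dir (v j)‖)
    (hc : ∀ i, Carried θ δ K S α β γ (v i) (x i)) :
    ∫⁻ y : Space m, ‖mult δ v x y‖ₑ ^ q ≤
      ENNReal.ofReal (CS m k r D * (δ ^ (-(m * (m * r) / k)) *
        θ ^ (-(1 / ((m : ℝ) + 1) + m / k)) * (1 + K + A + Λ) ^ (4 * m + m ^ 2)) *
        (δ ^ ((m : ℝ) + 1) * (Fintype.card ι : ℝ) ^ (q - 1 / ((m : ℝ) + 1)))) := by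
  classical
  have hm0 : (0 : ℝ) < m := by exact_mod_cast hm
  have hm1 : (1 : ℝ) ≤ m := by exact_mod_cast hm
  have hk0 : (0 : ℝ) < k := by exact_mod_cast hk
  have hk1 : (1 : ℝ) ≤ k := by exact_mod_cast hk
  have hr0 : 0 < r := by
    by_contra h
    push Not at h
    nlinarith
  have hq0 : 0 < q := by linarith
  rcases isEmpty_or_nonempty ι with hι | hι
  · have h0 : ∀ y, ‖mult δ v x y‖ₑ ^ q = 0 := by
      intro y
      unfold mult
      simp [hq0]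
    simp [h0]
  have hθ1 : θ ≤ 1 := theta_le_one hδ (hc hι.some)
  set V0 : ℝ := (volume (ball (0 : Base m) 1)).toReal with hV0
  have hV00 : 0 < V0 := ENNReal.toReal_pos (measure_ball_pos volume _ one_pos).ne'
    (measure_ball_lt_top).ne
  have hV0e : volume (ball (0 : Base m) 1) = ENNReal.ofReal V0 :=
    (ENNReal.ofReal_toReal (measure_ball_lt_top).ne).symm
  set W0 : ℝ := (volume (closedBall (0 : Vec m) 1)).toReal with hW0
  have hW00 : 0 < W0 := ENNReal.toReal_pos (measure_closedBall_pos volume _ one_pos).ne'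
    (measure_closedBall_lt_top).ne
  have hW0e : volume (closedBall (0 : Vec m) 1) = ENNReal.ofReal W0 :=
    (ENNReal.ofReal_toReal (measure_closedBall_lt_top).ne).symm
  set L : ℝ := (δ / 2) ^ (m + 1) * V0 / 2 with hL
  have hL0 : 0 < L := by positivity
  have hLe : volume (ball (0 : Base m) (δ / 2)) = ENNReal.ofReal (2 * L) := by
    rw [Measure.addHaar_ball _ _ (by positivity), finrank_base, hV0e,
      ← ENNReal.ofReal_mul (by positivity)]
    congr 1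
    rw [hL]
    ring
  set c : ℝ := cc m D with hcdef
  have hc0 : 0 < c := by
    rw [hcdef]
    unfold cc
    apply lt_min <;> positivity
  have hca : c ≤ 1 / (24 * ((m : ℝ) + 1)) := min_le_left _ _
  have hcb : c ≤ V0 / (2 ^ (m + 3) * (3 * 6 ^ (m - 1) * D * W0)) := min_le_right _ _
  have hc1 : c ≤ 1 := by
    refine hca.trans ?_
    rw [div_le_one (by positivity)]
    linarith
  obtain ⟨u, hu0, hu1, huk, hAu, hus⟩ := exists_scale hm hk hc0 hc1 hA hθ hθ1 hδ hδ1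
  set h : ℝ := u / m with hh
  have hh0 : 0 < h := by positivity
  have hmh : m * h = u := by rw [hh]; field_simp
  have hh1 : h ≤ 1 := by
    rw [hh, div_le_one hm0]; linarith
  have hcθδ : c * θ * δ ≤ δ := by
    have : c * θ * δ ≤ 1 * 1 * δ := by gcongr
    linarith
  have hsep' : ∀ i j, i ≠ j → δ ≤ ‖v i - v j‖ := fun i j hij =>
    (hsep i j hij).trans (dir_sub_le _ _)
  have hdet : D * (6 * A) ^ (m - 1) * (3 * (A * (m * h) ^ k)) * (W0 * δ) ≤ θ * L / 2 := by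
    rw [hmh, huk]
    have e1 : (6 * A) ^ (m - 1) * A = 6 ^ (m - 1) * A ^ m := by
      rw [mul_pow, mul_assoc, ← pow_succ]
      congr 2
      omega
    have e2 : A ^ m / (1 + A) ^ m ≤ 1 := by
      rw [div_le_one (by positivity)]
      exact pow_le_pow_left₀ hA (by linarith) _
    calc D * (6 * A) ^ (m - 1) * (3 * (A * (c * θ * δ ^ m / (1 + A) ^ m))) * (W0 * δ)
        = D * ((6 * A) ^ (m - 1) * A) * (3 * (c * θ * δ ^ m / (1 + A) ^ m)) * (W0 * δ) := by ring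
      _ = (3 * 6 ^ (m - 1) * D * W0) * c * (θ * δ ^ (m + 1)) * (A ^ m / (1 + A) ^ m) := by
          rw [e1, pow_succ δ m]
          field_simp
      _ ≤ (3 * 6 ^ (m - 1) * D * W0) * (V0 / (2 ^ (m + 3) * (3 * 6 ^ (m - 1) * D * W0))) *
          (θ * δ ^ (m + 1)) * 1 := by gcongr
      _ = θ * L / 2 := by
          rw [hL, div_pow, pow_succ (2 : ℝ) (m + 2), pow_succ (2 : ℝ) (m + 1)]
          field_simp
  have hx8 : θ * δ / (8 * ((m : ℝ) + 1)) ≤ δ / 2 := by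
    rw [div_le_div_iff₀ (by positivity) (by norm_num)]
    have : θ * δ ≤ 1 * δ := by gcongr
    nlinarith
  obtain ⟨φ, hPF, hTD⟩ := data hm hk (K := K) (Λ := Λ) hA hK hΛ hθ hδ hδ1 hS hS1 hα hβ hγ v x hv hx
    hsep' hc hL0 hLe hW0e hW00.le hD hD0.le hh0 (by rw [hmh]; exact hu1)
    (by rw [hmh]; exact hAu.trans hcθδ)
    (ε₀ := θ * δ / (8 * ((m : ℝ) + 1)))
    (by
      rw [hmh]
      have h1 : 3 * (A * u ^ (k + 1)) ≤ 3 * (c * θ * δ) := by gcongr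
      refine h1.trans ?_
      have h2 : c * (24 * ((m : ℝ) + 1)) ≤ 1 := by
        rwa [le_div_iff₀ (by positivity)] at hca
      rw [le_div_iff₀ (by positivity)]
      have h3 : 0 < θ * δ := by positivity
      nlinarith)
    hx8 (shell hδ hθ hθ1 hV00 hV0e hL) hdet
  rw [hL] at hTD
  have key := final_data hm hr hr1 hrq (by positivity : 0 ≤ K + 1 + 2 * Λ)
    (by positivity : 0 < θ / 2) hδ hδ1 (by positivity : 0 ≤ A + 1) MeasurableSet.univ v x hv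
    hPF hTD
  have hset : {y : Space m | (y.snd, y.fst.snd) ∈ (univ : Set (ℝ × ℝ))} = univ := by
    ext y; simp
  rw [hset, Measure.restrict_univ] at key
  refine key.trans (ENNReal.ofReal_le_ofReal ?_)
  set Mk : ℕ := ((k * m + 1) ^ m) ^ m with hMk
  have hMk1 : (1 : ℝ) ≤ Mk := by
    rw [hMk]
    exact_mod_cast Nat.one_le_pow _ _ (Nat.one_le_pow _ _ (Nat.succ_pos _))
  set N : ℝ := (Fintype.card ι : ℝ) with hN
  have hN0 : 0 ≤ N := Nat.cast_nonneg _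
  clear_value Mk N
  have hM : (1 : ℝ) + (((cells m h).card * Mk : ℕ) : ℝ) ≤ 2 * Mk * (4 * m) ^ m * (u⁻¹) ^ m := by
    have h1 := card_cells (m := m) hh0 hh1
    have h2 : (4 / h) ^ m = (4 * m) ^ m * (u⁻¹) ^ m := by
      rw [← mul_pow, hh]
      congr 1
      field_simp
    rw [h2] at h1
    have h3 : 1 ≤ u⁻¹ := (one_le_inv₀ hu0).2 hu1
    have h4 : (1 : ℝ) ≤ (4 * m) ^ m * (u⁻¹) ^ m := by
      have a1 : (1 : ℝ) ≤ (4 * m) ^ m := one_le_pow₀ (by linarith)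
      have a2 : (1 : ℝ) ≤ (u⁻¹) ^ m := one_le_pow₀ h3
      nlinarith
    push_cast
    calc (1 : ℝ) + (cells m h).card * Mk ≤ Mk * ((4 * m) ^ m * (u⁻¹) ^ m) +
          ((4 * m) ^ m * (u⁻¹) ^ m) * Mk := by
          have a3 : (1 : ℝ) * 1 ≤ Mk * ((4 * m) ^ m * (u⁻¹) ^ m) := by gcongr
          have a4 : ((cells m h).card : ℝ) * Mk ≤ ((4 * m) ^ m * (u⁻¹) ^ m) * Mk := by gcongr
          linarith
      _ = _ := by ring
  have hX1 : 0 ≤ (1 : ℝ) + (((cells m h).card * Mk : ℕ) : ℝ) := by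
    have := Nat.cast_nonneg (α := ℝ) ((cells m h).card * Mk)
    linarith
  have hMr : ((1 : ℝ) + (((cells m h).card * Mk : ℕ) : ℝ)) ^ r ≤
      (2 * Mk * (4 * m) ^ m) ^ r * (c ^ (-(m * r / k)) * θ ^ (-(m / k : ℝ)) *
        δ ^ (-(m * (m * r) / k)) * (1 + K + A + Λ) ^ (m ^ 2)) := by
    have h1 : ((1 : ℝ) + (((cells m h).card * Mk : ℕ) : ℝ)) ^ r ≤
        (2 * Mk * (4 * m) ^ m * (u⁻¹) ^ m) ^ r :=
      Real.rpow_le_rpow hX1 hM hr0.le
    refine h1.trans ?_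
    rw [Real.mul_rpow (by positivity) (by positivity)]
    have h2 : ((u⁻¹) ^ m) ^ r = u ^ (-(m * r)) := by
      rw [inv_pow, ← Real.rpow_natCast, ← Real.rpow_neg hu0.le, ← Real.rpow_mul hu0.le]
      congr 1
      ring
    rw [h2, hus (m * r) (by positivity)]
    have h3 : θ ^ (-(m * r / k)) ≤ θ ^ (-(m / k : ℝ)) := by
      apply Real.rpow_le_rpow_of_exponent_ge hθ hθ1
      rw [neg_le_neg_iff, div_le_div_iff_of_pos_right hk0]
      nlinarith
    have h4 : (1 + A) ^ (m * (m * r) / k) ≤ (1 + K + A + Λ) ^ (m ^ 2) := by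
      calc (1 + A) ^ (m * (m * r) / k) ≤ (1 + A) ^ (((m ^ 2 : ℕ)) : ℝ) := by
            apply Real.rpow_le_rpow_of_exponent_le (by linarith)
            push_cast
            rw [div_le_iff₀ hk0]
            have a1 : (m : ℝ) * (m * r) ≤ m * (m * 1) := by gcongr
            nlinarith [sq_nonneg (m : ℝ)]
        _ = (1 + A) ^ (m ^ 2) := Real.rpow_natCast _ _
        _ ≤ (1 + K + A + Λ) ^ (m ^ 2) := by
            apply pow_le_pow_left₀ (by linarith)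
            linarith
    gcongr
  have hθ2 : (θ / 2) ^ (-(1 / ((m : ℝ) + 1))) ≤ 2 * θ ^ (-(1 / ((m : ℝ) + 1))) := by
    rw [Real.div_rpow hθ.le (by norm_num)]
    have h1 : (2 : ℝ) ^ (-(1 / ((m : ℝ) + 1))) = (2 ^ (1 / ((m : ℝ) + 1)))⁻¹ := by
      rw [Real.rpow_neg (by norm_num)]
    rw [h1, div_inv_eq_mul, mul_comm]
    have h2 : (2 : ℝ) ^ (1 / ((m : ℝ) + 1)) ≤ 2 ^ (1 : ℝ) := by
      apply Real.rpow_le_rpow_of_exponent_le (by norm_num)
      rw [div_le_one (by positivity)]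
      linarith
    rw [Real.rpow_one] at h2
    gcongr
  have h3K : (1 + (K + 1 + 2 * Λ) + (A + 1)) ^ (4 * m) ≤
      3 ^ (4 * m) * (1 + K + A + Λ) ^ (4 * m) := by
    rw [← mul_pow]
    apply pow_le_pow_left₀ (by positivity)
    linarith
  have hθs : θ ^ (-(1 / ((m : ℝ) + 1) + m / k)) =
      θ ^ (-(1 / ((m : ℝ) + 1))) * θ ^ (-(m / k : ℝ)) := by
    rw [← Real.rpow_add hθ]
    congr 1
    ring
  have hCf : Cf m r ≤ max (Cf m r) 1 := le_max_left _ _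
  have hCf0 : 0 < max (Cf m r) 1 := lt_of_lt_of_le one_pos (le_max_right _ _)
  have hX2 : 0 ≤ ((1 : ℝ) + (((cells m h).card * Mk : ℕ) : ℝ)) ^ r := Real.rpow_nonneg hX1 r
  generalize ((1 : ℝ) + (((cells m h).card * Mk : ℕ) : ℝ)) ^ r = X at hMr hX2 ⊢
  calc Cf m r * X *
        (θ / 2) ^ (-(1 / ((m : ℝ) + 1))) * (1 + (K + 1 + 2 * Λ) + (A + 1)) ^ (4 * m) *
        δ ^ ((m : ℝ) + 1) * N ^ (q - 1 / ((m : ℝ) + 1))
      ≤ max (Cf m r) 1 * ((2 * Mk * (4 * m) ^ m) ^ r * (c ^ (-(m * r / k)) * θ ^ (-(m / k : ℝ)) *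
        δ ^ (-(m * (m * r) / k)) * (1 + K + A + Λ) ^ (m ^ 2))) *
        (2 * θ ^ (-(1 / ((m : ℝ) + 1)))) * (3 ^ (4 * m) * (1 + K + A + Λ) ^ (4 * m)) *
        δ ^ ((m : ℝ) + 1) * N ^ (q - 1 / ((m : ℝ) + 1)) := by gcongr
    _ = _ := by
        unfold CS
        rw [hθs, pow_add, ← hMk, ← hcdef]
        ring

end Pool.Agent.X160.Ps
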