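import Pool.Agent.H810R3.Tub.Smooth
set_option autoImplicit false

/-!
# The derivative of a Taylor polynomial
-/

open MeasureTheory Set Metric Filter Function
open scoped ENNReal NNReal

namespace Pool.Agent.X160.Ps

/-- The derivative of order `j` in `j - 1` equal directions does not depend on the position of the
remaining one. -/
theorem iter_update {E : Type} [NormedAddCommGroup E] [NormedSpace ℝ E] (j : ℕ) :
    ∀ (F : Type) [NormedAddCommGroup F] [NormedSpace ℝ F] (f : E → F), ContDiff ℝ j f →
      ∀ (x u e : E) (i i' : Fin j), iteratedFDeriv ℝ j f x (update (fun _ => u) i e) =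
        iteratedFDeriv ℝ j f x (update (fun _ => u) i' e) := by
  induction j with
  | zero => intro F _ _ f _ x u e i; exact i.elim0
  | succ j ih =>
    intro F _ _ f hf x u e i i'
    have hfj : ContDiff ℝ j f := hf.of_le (by exact_mod_cast Nat.le_succ j)
    have hf' : ContDiff ℝ j (fderiv ℝ f) := hf.fderiv_right (by exact_mod_cast le_rfl)
    -- both positions before the last
    have hinit : ∀ a b : Fin j, iteratedFDeriv ℝ (j + 1) f x (update (fun _ => u) a.castSucc e) =
        iteratedFDeriv ℝ (j + 1) f x (update (fun _ => u) b.castSucc e) := by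
      intro a b
      rw [iteratedFDeriv_succ_apply_right, iteratedFDeriv_succ_apply_right]
      have h1 : ∀ c : Fin j, Fin.init (update (fun _ : Fin (j + 1) => u) c.castSucc e) =
          update (fun _ => u) c e := by
        intro c
        rw [Fin.init_update_castSucc]
        rfl
      have h2 : ∀ c : Fin j, update (fun _ : Fin (j + 1) => u) c.castSucc e (Fin.last j) = u := by
        intro c
        rw [update_of_ne]
        exact (Fin.castSucc_lt_last c).ne'
      rw [h1, h1, h2, h2]
      have := ih (E →L[ℝ] F) (fderiv ℝ f) hf' x u e a b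
      exact congrArg (fun L : E →L[ℝ] F => L u) this
    -- both positions after the first
    have htail : ∀ a b : Fin j, iteratedFDeriv ℝ (j + 1) f x (update (fun _ => u) a.succ e) =
        iteratedFDeriv ℝ (j + 1) f x (update (fun _ => u) b.succ e) := by
      intro a b
      have hd : DifferentiableAt ℝ (iteratedFDeriv ℝ j f) x := by
        apply hf.contDiffAt.differentiableAt_iteratedFDeriv
        exact_mod_cast Nat.lt_succ_self j
      have h3 : ∀ c : Fin j, iteratedFDeriv ℝ (j + 1) f x (update (fun _ => u) c.succ e) =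
          fderiv ℝ (fun y => iteratedFDeriv ℝ j f y (update (fun _ => u) c e)) x u := by
        intro c
        have h4 := (hd.hasFDerivAt.continuousMultilinear_apply_const
          (update (fun _ : Fin j => u) c e)).fderiv
        rw [h4, iteratedFDeriv_succ_apply_left]
        have h1 : Fin.tail (update (fun _ : Fin (j + 1) => u) c.succ e) =
            update (fun _ => u) c e := by
          rw [Fin.tail_update_succ]
          rfl
        have h2 : update (fun _ : Fin (j + 1) => u) c.succ e 0 = u := by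
          rw [update_of_ne]
          exact (Fin.succ_ne_zero c).symm
        rw [h1, h2]
        rfl
      rw [h3, h3]
      have h5 : (fun y => iteratedFDeriv ℝ j f y (update (fun _ => u) a e)) =
          (fun y => iteratedFDeriv ℝ j f y (update (fun _ => u) b e)) := by
        funext y
        exact ih F f hfj y u e a b
      rw [h5]
    rcases Nat.lt_or_ge j 2 with hj | hj
    · interval_cases j
      · have : i = i' := by
          ext
          omega
        rw [this]
      · -- second derivatives
        have hs : IsSymmSndFDerivAt ℝ f x :=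
          (hf.contDiffAt (x := x)).isSymmSndFDerivAt (by simp)
        have h2 := hs.eq u e
        have key : ∀ a : Fin 2, iteratedFDeriv ℝ (1 + 1) f x (update (fun _ => u) a e) =
            fderiv ℝ (fderiv ℝ f) x e u := by
          intro a
          have h3 := iteratedFDeriv_two_apply (𝕜 := ℝ) f x (update (fun _ => u) a e)
          refine h3.trans ?_
          fin_cases a
          · simp
          · simpa using h2
        rw [key i, key i']
    · -- at least three positions
      have p1 : ∀ a : Fin (j + 1), iteratedFDeriv ℝ (j + 1) f x (update (fun _ => u) a e) =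
          iteratedFDeriv ℝ (j + 1) f x (update (fun _ => u) (⟨1, by omega⟩ : Fin (j + 1)) e) := by
        intro a
        by_cases ha : a = Fin.last j
        · obtain ⟨c, hc⟩ : ∃ c : Fin j, a = c.succ := by
            refine ⟨⟨j - 1, by omega⟩, ?_⟩
            rw [ha]
            ext
            simp
            omega
          rw [hc]
          exact htail c ⟨0, by omega⟩
        · obtain ⟨c, hc⟩ : ∃ c : Fin j, a = c.castSucc := by
            have : a.val < j := by
              have h1 := a.isLt
              have h2 : a.val ≠ j := fun h => ha (by ext; simpa using h)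
              omega
            exact ⟨⟨a.val, this⟩, by ext; simp⟩
          rw [hc]
          exact hinit c ⟨1, by omega⟩
      rw [p1 i, p1 i']

/-- The derivative of the homogeneous part of degree `j + 1` of a Taylor polynomial. -/
theorem hasFDerivAt_part {E F : Type} [NormedAddCommGroup E] [NormedSpace ℝ E]
    [NormedAddCommGroup F] [NormedSpace ℝ F] {f : E → F} {j : ℕ} (hf : ContDiff ℝ (j + 1 : ℕ) f)
    (w v : E) :
    HasFDerivAt (fun v => iteratedFDeriv ℝ (j + 1) f w (fun _ => v - w))
      (((j : ℝ) + 1) • iteratedFDeriv ℝ j (fderiv ℝ f) w (fun _ => v - w)) v := by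
  classical
  set g := iteratedFDeriv ℝ (j + 1) f w with hg
  have h1 : HasFDerivAt (fun v : E => (fun _ : Fin (j + 1) => v - w))
      (ContinuousLinearMap.pi (fun _ : Fin (j + 1) => ContinuousLinearMap.id ℝ E)) v := by
    rw [hasFDerivAt_pi]
    intro _
    exact (hasFDerivAt_id v).sub_const w
  have h2 := (g.hasFDerivAt (x := fun _ : Fin (j + 1) => v - w)).comp v h1
  refine HasFDerivAt.congr_fderiv h2 ?_
  ext e
  rw [ContinuousLinearMap.comp_apply, ContinuousMultilinearMap.linearDeriv_apply]
  have h3 : ∀ i : Fin (j + 1), g (update (fun _ => v - w) i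
      ((ContinuousLinearMap.pi (fun _ : Fin (j + 1) => ContinuousLinearMap.id ℝ E)) e i)) =
      iteratedFDeriv ℝ j (fderiv ℝ f) w (fun _ => v - w) e := by
    intro i
    have h4 := iter_update (j + 1) F f hf w (v - w) e i (Fin.last j)
    rw [← hg] at h4
    have h5 : (ContinuousLinearMap.pi (fun _ : Fin (j + 1) => ContinuousLinearMap.id ℝ E)) e i = e := rfl
    rw [h5, h4, hg, iteratedFDeriv_succ_apply_right, Fin.init_update_last, update_self]
    rfl
  rw [Finset.sum_congr rfl (fun i _ => h3 i), Finset.sum_const, Finset.card_univ, Fintype.card_fin,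
    ContinuousLinearMap.smul_apply, ← Nat.cast_smul_eq_nsmul ℝ]
  push_cast
  rfl

/-- Taylor's formula with a bound for the remainder. -/
theorem taylor_bound {E F : Type} [NormedAddCommGroup E] [NormedSpace ℝ E]
    [NormedAddCommGroup F] [NormedSpace ℝ F] [CompleteSpace F] {b : E → F} {k : ℕ}
    (hb : ContDiff ℝ (k + 1 : ℕ) b) {A : ℝ}
    (hA : ∀ v, ‖v‖ ≤ 1 → ‖iteratedFDeriv ℝ (k + 1) b v‖ ≤ A) {v w : E}
    (hv : ‖v‖ ≤ 1) (hw : ‖w‖ ≤ 1) :
    ‖b v - ∑ j ∈ Finset.range (k + 1), (j.factorial : ℝ)⁻¹ •
      iteratedFDeriv ℝ j b w (fun _ => v - w)‖ ≤ A * ‖v - w‖ ^ (k + 1) := by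
  have h := map_add_eq_sum_add_integral_iteratedFDeriv (f := b) (x := w) (y := v - w) (n := k)
    (fun t _ => by exact_mod_cast hb.contDiffAt)
  have hA0 : 0 ≤ A := (norm_nonneg _).trans (hA w hw)
  rw [add_sub_cancel] at h
  rw [h, add_sub_cancel_left, norm_smul, norm_inv, Real.norm_natCast]
  have hint : ‖∫ t in (0:ℝ)..1, (1 - t) ^ k • iteratedFDeriv ℝ (k + 1) b (w + t • (v - w)) (fun _ => v - w)‖ ≤
      (A * ‖v - w‖ ^ (k + 1)) * |(1:ℝ) - 0| := by
    apply intervalIntegral.norm_integral_le_of_norm_le_const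
    intro t ht
    rw [uIoc_of_le zero_le_one] at ht
    have hin : ‖w + t • (v - w)‖ ≤ 1 := by
      have : w + t • (v - w) = (1 - t) • w + t • v := by
        rw [smul_sub, sub_smul, one_smul]; abel
      rw [this]
      calc ‖(1 - t) • w + t • v‖ ≤ ‖(1 - t) • w‖ + ‖t • v‖ := norm_add_le _ _
        _ = (1 - t) * ‖w‖ + t * ‖v‖ := by
            rw [norm_smul, norm_smul, Real.norm_of_nonneg (by linarith [ht.2]), Real.norm_of_nonneg ht.1.le]
        _ ≤ 1 := by nlinarith [ht.1, ht.2]
    rw [norm_smul, norm_pow, Real.norm_of_nonneg (by linarith [ht.2] : (0:ℝ) ≤ 1 - t)]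
    have h1 : (1 - t) ^ k ≤ 1 := pow_le_one₀ (by linarith [ht.2]) (by linarith [ht.1])
    have h2 : ‖iteratedFDeriv ℝ (k + 1) b (w + t • (v - w)) (fun _ => v - w)‖ ≤ A * ‖v - w‖ ^ (k + 1) := by
      refine (ContinuousMultilinearMap.le_opNorm _ _).trans ?_
      rw [Finset.prod_const, Finset.card_univ, Fintype.card_fin]
      exact mul_le_mul_of_nonneg_right (hA _ hin) (by positivity)
    calc (1 - t) ^ k * ‖iteratedFDeriv ℝ (k + 1) b (w + t • (v - w)) (fun _ => v - w)‖
        ≤ 1 * (A * ‖v - w‖ ^ (k + 1)) := mul_le_mul h1 h2 (norm_nonneg _) zero_le_one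
      _ = _ := one_mul _
  rw [sub_zero, abs_one, mul_one] at hint
  have hf : ((k.factorial : ℝ))⁻¹ ≤ 1 := inv_le_one_of_one_le₀ (by exact_mod_cast Nat.factorial_pos k)
  calc _ ≤ 1 * (A * ‖v - w‖ ^ (k + 1)) := mul_le_mul hf hint (norm_nonneg _) zero_le_one
    _ = _ := one_mul _

open Pool.Agent.H810R3.Tub (pmap tpol tpol_eval)

variable {m : ℕ}

/-- **The derivative of the Taylor polynomial approximates the derivative.** -/
theorem taylor_deriv {b : EuclideanSpace ℝ (Fin m) → EuclideanSpace ℝ (Fin m)} {k : ℕ}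
    (hk : 1 ≤ k) (hb : ContDiff ℝ (k + 1 : ℕ) b) {A : ℝ}
    (hA : ∀ v, ‖v‖ ≤ 1 → ‖iteratedFDeriv ℝ (k + 1) b v‖ ≤ A) {v w : EuclideanSpace ℝ (Fin m)}
    (hv : ‖v‖ ≤ 1) (hw : ‖w‖ ≤ 1) :
    ‖fderiv ℝ b v - fderiv ℝ (pmap (tpol b k w)) v‖ ≤ A * ‖v - w‖ ^ k := by
  obtain ⟨l, rfl⟩ : ∃ l, k = l + 1 := ⟨k - 1, by omega⟩
  have hfun : pmap (tpol b (l + 1) w) = fun v =>
      ∑ j ∈ Finset.range (l + 1 + 1), (j.factorial : ℝ)⁻¹ • iteratedFDeriv ℝ j b w (fun _ => v - w) := by
    funext v
    exact tpol_eval b (l + 1) w v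
  have hder : HasFDerivAt (pmap (tpol b (l + 1) w))
      (∑ j ∈ Finset.range (l + 1), (j.factorial : ℝ)⁻¹ •
        iteratedFDeriv ℝ j (fderiv ℝ b) w (fun _ => v - w)) v := by
    rw [hfun]
    have h0 : (fun v => ∑ j ∈ Finset.range (l + 1 + 1), (j.factorial : ℝ)⁻¹ •
        iteratedFDeriv ℝ j b w (fun _ => v - w)) = fun v =>
        (∑ j ∈ Finset.range (l + 1), ((j + 1).factorial : ℝ)⁻¹ •
          iteratedFDeriv ℝ (j + 1) b w (fun _ => v - w)) + b w := by
      funext v
      rw [Finset.sum_range_succ']
      simp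
    rw [h0]
    apply HasFDerivAt.add_const
    have h1 : (fun v => ∑ j ∈ Finset.range (l + 1), ((j + 1).factorial : ℝ)⁻¹ •
          iteratedFDeriv ℝ (j + 1) b w (fun _ => v - w)) =
        ∑ j ∈ Finset.range (l + 1), fun v => ((j + 1).factorial : ℝ)⁻¹ •
          iteratedFDeriv ℝ (j + 1) b w (fun _ => v - w) := by
      funext v
      rw [Finset.sum_apply]
    rw [h1]
    apply HasFDerivAt.sum
    intro j hj
    have hjl : j ≤ l := Nat.lt_succ_iff.1 (Finset.mem_range.1 hj)
    have hbj : ContDiff ℝ (j + 1 : ℕ) b := hb.of_le (by exact_mod_cast (by omega : j + 1 ≤ l + 1 + 1))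
    have h2 := (hasFDerivAt_part hbj w v).const_smul (((j + 1).factorial : ℝ)⁻¹)
    refine HasFDerivAt.congr_fderiv h2 ?_
    rw [smul_smul]
    congr 1
    rw [Nat.factorial_succ]
    push_cast
    have : (j.factorial : ℝ) ≠ 0 := by exact_mod_cast Nat.factorial_ne_zero j
    have : (j : ℝ) + 1 ≠ 0 := by positivity
    field_simp
  rw [hder.fderiv]
  have hb' : ContDiff ℝ (l + 1 : ℕ) (fderiv ℝ b) := hb.fderiv_right (by exact_mod_cast le_rfl)
  refine taylor_bound hb' (A := A) (fun v hv => ?_) hv hw
  rw [norm_iteratedFDeriv_fderiv]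
  exact hA v hv

end Pool.Agent.X160.Ps
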